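import Pool.Agent.N356.SP.DefsK

/-!
# Project LK (helper356), GK23: the exponent for large `N` (helper572)
-/

set_option autoImplicit false

namespace Pool.Agent.N572.LK

open Finset Pool.Agent.H384R3.SPk Pool.Agent.N356.SP

/-- bounds for the constant -/
theorem ck_bound {k : ℕ} (hk : 2 ≤ k) :
    0 ≤ Real.log ((2 * (2 * (k : ℝ) - 1)) ^ k / ((2 * k).choose k : ℝ)) ∧
    Real.log ((2 * (2 * (k : ℝ) - 1)) ^ k / ((2 * k).choose k : ℝ)) ≤
      (k + 1) * Real.log k + 1 := by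
  have hkR : (2 : ℝ) ≤ k := by exact_mod_cast hk
  have hc0 : (0 : ℝ) < ((2 * k).choose k : ℝ) := by
    exact_mod_cast Nat.choose_pos (by omega)
  have hc1 : ((2 * k).choose k : ℝ) ≤ 4 ^ k := by
    have h1 : (2 * k).choose k ≤ 2 ^ (2 * k) := Nat.choose_le_two_pow _ _
    have h2 : ((2 * k).choose k : ℝ) ≤ 2 ^ (2 * k) := by exact_mod_cast h1
    rwa [pow_mul, show ((2 : ℝ) ^ 2) = 4 by norm_num] at h2
  have hc2 : (4 : ℝ) ^ k ≤ 2 * k * ((2 * k).choose k : ℝ) := by
    have h1 := Nat.four_pow_le_two_mul_self_mul_centralBinom k (by omega)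
    rw [Nat.centralBinom_eq_two_mul_choose] at h1
    exact_mod_cast h1
  constructor
  · apply Real.log_nonneg
    rw [le_div_iff₀ hc0, one_mul]
    refine hc1.trans ?_
    apply pow_le_pow_left₀ (by norm_num)
    linarith
  · have h1 : (2 * (2 * (k : ℝ) - 1)) ^ k / ((2 * k).choose k : ℝ) ≤ 2 * k * (k : ℝ) ^ k := by
      rw [div_le_iff₀ hc0]
      calc (2 * (2 * (k : ℝ) - 1)) ^ k ≤ (4 * (k : ℝ)) ^ k := by
            apply pow_le_pow_left₀ (by linarith)
            linarith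
        _ = 4 ^ k * (k : ℝ) ^ k := mul_pow _ _ _
        _ ≤ (2 * k * ((2 * k).choose k : ℝ)) * (k : ℝ) ^ k := by gcongr
        _ = _ := by ring
    have h0 : 0 < (2 * (2 * (k : ℝ) - 1)) ^ k / ((2 * k).choose k : ℝ) := by
      apply div_pos _ hc0
      apply pow_pos
      linarith
    have h2 := Real.log_le_log h0 h1
    have hk0 : (k : ℝ) ≠ 0 := by linarith
    rw [Real.log_mul (by positivity) (by positivity), Real.log_mul (by norm_num) hk0,
      Real.log_pow] at h2
    have h3 : Real.log 2 ≤ 2 - 1 := Real.log_le_sub_one_of_pos (by norm_num)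
    linarith

/-- GK23: the exponent for large `N` -/
theorem asymK (hmax : ∀ {k : ℕ}, 6 ≤ k → ∃ K : ℝ, 1 ≤ K ∧ ∀ N : ℕ, k ≤ N → ∀ A : Finset ℤ,
    A.Nonempty → ((A.card : ℝ) / K) ^
      ((k * Real.log N + Real.log ((2 * (2 * (k : ℝ) - 1)) ^ k / ((2 * k).choose k : ℝ))) /
        (Real.log N + Real.log ((2 * (2 * (k : ℝ) - 1)) ^ k / ((2 * k).choose k : ℝ)))) ≤
      max ((sumset N A).card : ℝ) ((prodset fun _ : Fin N => A).card : ℝ)) :
    ∀ ε : ℝ, 0 < ε → ∃ N₀ : ℕ, ∀ N : ℕ, N₀ ≤ N → ∃ K : ℝ, 1 ≤ K ∧ ∀ A : Finset ℤ, A.Nonempty →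
      ((A.card : ℝ) / K) ^ (Real.log N / (Real.log (Real.log N) + 1 + ε)) ≤
        max ((sumset N A).card : ℝ) ((prodset fun _ : Fin N => A).card : ℝ) := by
  intro ε hε
  have hT : Filter.Tendsto (fun N : ℕ => Real.log N) Filter.atTop Filter.atTop :=
    Real.tendsto_log_atTop.comp tendsto_natCast_atTop_atTop
  have hev : ∀ᶠ x : ℝ in Filter.atTop, 6 ≤ x ∧ 6 / ε ≤ x ∧ Real.log x ≤ ε / 2 * x := by
    have h1 := Real.isLittleO_log_id_atTop.def (show 0 < ε / 2 by positivity)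
    filter_upwards [h1, Filter.eventually_ge_atTop (6 : ℝ),
      Filter.eventually_ge_atTop (6 / ε)] with x h2 h3 h4
    refine ⟨h3, h4, ?_⟩
    rw [Real.norm_eq_abs, Real.norm_eq_abs, id, abs_of_pos (by linarith : (0 : ℝ) < x)] at h2
    exact (le_abs_self _).trans h2
  obtain ⟨N₀, hN₀⟩ := Filter.eventually_atTop.1 (hT.eventually hev)
  refine ⟨max N₀ 1, fun N hN => ?_⟩
  obtain ⟨h6, hε6, hlog⟩ := hN₀ N (le_trans (le_max_left _ _) hN)
  have hN1 : 1 ≤ N := le_trans (le_max_right _ _) hN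
  have hNR : (1 : ℝ) ≤ N := by exact_mod_cast hN1
  obtain ⟨L, hL⟩ : ∃ L : ℝ, L = Real.log N := ⟨_, rfl⟩
  rw [← hL] at h6 hε6 hlog ⊢
  obtain ⟨k, hk⟩ : ∃ k : ℕ, k = ⌈L⌉₊ := ⟨_, rfl⟩
  have hL0 : 0 < L := by linarith
  have hkL : L ≤ k := by rw [hk]; exact Nat.le_ceil _
  have hkL1 : (k : ℝ) < L + 1 := by rw [hk]; exact Nat.ceil_lt_add_one hL0.le
  have hk6 : 6 ≤ k := by
    have : (6 : ℝ) ≤ k := by linarith
    exact_mod_cast this
  have hkN : k ≤ N := by
    have h1 : L ≤ N - 1 := by rw [hL]; exact Real.log_le_sub_one_of_pos (by linarith)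
    have h2 : (k : ℝ) < N := by linarith
    exact_mod_cast h2.le
  obtain ⟨K, hK1, hK⟩ := hmax hk6
  refine ⟨K, hK1, fun A hA => ?_⟩
  have key := hK N hkN A hA
  rw [← hL] at key
  obtain ⟨hc0, hc1⟩ := ck_bound (show 2 ≤ k by omega)
  obtain ⟨c, hc⟩ : ∃ c : ℝ,
      c = Real.log ((2 * (2 * (k : ℝ) - 1)) ^ k / ((2 * k).choose k : ℝ)) := ⟨_, rfl⟩
  rw [← hc] at key hc0 hc1
  have hlL : 0 ≤ Real.log L := Real.log_nonneg (by linarith)
  have hden : 0 < Real.log L + 1 + ε := by linarith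
  -- comparison of the exponents
  have hexp : L / (Real.log L + 1 + ε) ≤ (k * L + c) / (L + c) := by
    rw [div_le_div_iff₀ hden (by linarith)]
    have hk0 : (0 : ℝ) < k := by linarith
    have h1 : Real.log k ≤ Real.log L + 1 / L := by
      have h2 : Real.log k ≤ Real.log (L * (1 + 1 / L)) := by
        apply Real.log_le_log hk0
        have : L * (1 + 1 / L) = L + 1 := by field_simp
        rw [this]
        exact hkL1.le
      rw [Real.log_mul hL0.ne' (by positivity)] at h2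
      have h3 : Real.log (1 + 1 / L) ≤ (1 + 1 / L) - 1 :=
        Real.log_le_sub_one_of_pos (by positivity)
      linarith
    have h2 : ((k : ℝ) + 1) * Real.log k ≤ (k + 1) * (Real.log L + 1 / L) := by
      gcongr
    have h3 : ((k : ℝ) + 1) * (1 / L) ≤ 2 := by
      rw [mul_one_div, div_le_iff₀ hL0]
      linarith
    have h4 : 6 ≤ ε * L := by
      rw [div_le_iff₀ hε] at hε6
      linarith
    have h5 : ε * L ≤ ε * k := mul_le_mul_of_nonneg_left hkL hε.le
    have h6 : L + c ≤ k * (Real.log L + 1 + ε) := by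
      nlinarith
    calc L * (L + c) ≤ L * (k * (Real.log L + 1 + ε)) := mul_le_mul_of_nonneg_left h6 hL0.le
      _ = k * L * (Real.log L + 1 + ε) := by ring
      _ ≤ (k * L + c) * (Real.log L + 1 + ε) := by
        apply mul_le_mul_of_nonneg_right _ hden.le
        linarith
  have hK0 : 0 < K := by linarith
  by_cases hx : 1 ≤ (A.card : ℝ) / K
  · exact (Real.rpow_le_rpow_of_exponent_le hx hexp).trans key
  · push Not at hx
    have h1 : ((A.card : ℝ) / K) ^ (L / (Real.log L + 1 + ε)) ≤ 1 :=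
      Real.rpow_le_one (by positivity) hx.le (by positivity)
    refine h1.trans (le_trans ?_ (le_max_right _ _))
    have h2 : (prodset fun _ : Fin N => A).Nonempty := by
      unfold prodset
      exact Finset.Nonempty.image (Fintype.piFinset_nonempty.2 fun _ => hA) _
    exact_mod_cast h2.card_pos

end Pool.Agent.N572.LK
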